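import Mathlib

/-!
Ghys-Kenyon space of the free group, graph matchbox manifolds and their levels,
read off on the complete transversal `X` (see the problem file).
-/

namespace Pool.Agent.W_MP_fee8af_an

/-- The Cayley graph of the free group of rank `n` for its free basis: the edges are
between g and g * x_i. -/
def cayley (n : ℕ) : SimpleGraph (FreeGroup (Fin n)) where
  Adj g h := ∃ i : Fin n, h = g * FreeGroup.of i ∨ g = h * FreeGroup.of i
  symm := ⟨fun _ _ ⟨i, hi⟩ => ⟨i, hi.symm⟩⟩
  loopless := ⟨fun _ ⟨i, hi⟩ => by
    rcases hi with hi | hi <;> exact FreeGroup.of_ne_one i (by simpa using hi.symm)⟩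

/-- The space `X`: the infinite connected subtrees of the Cayley graph that contain the
identity.  A connected subgraph of a tree is the subgraph induced on its set of vertices, so
a subtree is recorded by its set of vertices. -/
structure X (n : ℕ) where
  verts : Set (FreeGroup (Fin n))
  one_mem : (1 : FreeGroup (Fin n)) ∈ verts
  infinite : verts.Infinite
  connected : ((cayley n).induce verts).Connected

/-- The ball of radius `r` about the identity in `T` (the distance to the identity in the
Cayley tree is the reduced word length). -/
def X.ball {n : ℕ} (T : X n) (r : ℕ) : Set (FreeGroup (Fin n)) :=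
  {g | g ∈ T.verts ∧ FreeGroup.norm g ≤ r}

/-- The topology of `X`: two trees are close when large balls about the identity agree. -/
instance (n : ℕ) : TopologicalSpace (X n) :=
  TopologicalSpace.generateFrom
    {U | ∃ (T : X n) (r : ℕ), U = {S : X n | S.ball r = T.ball r}}

/-- The leaf through `T`: the trees `g⁻¹ T`, with `g` a vertex of `T`. -/
def leaf {n : ℕ} (T : X n) : Set (X n) :=
  {S | ∃ g ∈ T.verts, S.verts = {h | g * h ∈ T.verts}}

/-- The union of the leaves of `M` that are not dense in `M`. -/
def nonDense {n : ℕ} (M : Set (X n)) : Set (X n) :=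
  {S | S ∈ M ∧ ¬ M ⊆ closure (leaf S)}

/-- `AtLevel k M`: the (closed saturated) set `M` is at level `k`.
Level `0`: `M` is a compact leaf or a minimal set.
Level `k + 1`: the closure of the union of the leaves of `M` not dense in `M` is a proper
subset of `M`, each such leaf is at level at most `k`, and at least one is at level `k`. -/
def AtLevel {n : ℕ} : ℕ → Set (X n) → Prop
  | 0, M => (∃ T : X n, M = leaf T ∧ M.Finite) ∨
      (M.Nonempty ∧ IsClosed M ∧ ∀ S ∈ M, closure (leaf S) = M)
  | k + 1, M => closure (nonDense M) ⊂ M ∧
      (∀ S ∈ nonDense M, ∃ j, ∃ _ : j ≤ k, AtLevel j (closure (leaf S))) ∧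
      (∃ S ∈ nonDense M, AtLevel k (closure (leaf S)))
termination_by k _ => k

/-- `M` is at infinite level: it is at no finite level. -/
def InfiniteLevel {n : ℕ} (M : Set (X n)) : Prop := ∀ k : ℕ, ¬ AtLevel k M

end Pool.Agent.W_MP_fee8af_an
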