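import Pool.Agent.W_MP_fee8af_an.Symbolic

namespace Pool.Agent.W_MP_fee8af_an

variable {n : ℕ}

/-- at level `0` there are no non-dense leaves -/
theorem nonDense_of_atLevel_zero (M : Set (X n)) (hM : AtLevel 0 M) : nonDense M = ∅ := by
  rw [AtLevel] at hM
  ext S
  simp only [Set.mem_empty_iff_false, iff_false]
  rintro ⟨hS, hS'⟩
  rcases hM with ⟨T, hT, hfin⟩ | ⟨-, -, hM⟩
  · apply hS'
    intro R hR
    apply subset_closure
    rw [hT] at hS hR
    obtain ⟨g, hg, hg'⟩ := hS
    obtain ⟨h, hh, hh'⟩ := hR
    refine ⟨g⁻¹ * h, ?_, ?_⟩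
    · rw [hg']; simpa using hh
    · rw [hh', hg']
      ext x
      simp [mul_assoc]
  · apply hS'
    rw [hM S hS]

/-- a set has at most one finite level -/
theorem atLevel_unique : ∀ (k j : ℕ), j < k → ∀ (M : Set (X n)), AtLevel k M →
    ¬ AtLevel j M := by
  intro k
  induction k with
  | zero => intro j hj; omega
  | succ k ih =>
    intro j hj M h1 h2
    rw [AtLevel] at h1
    obtain ⟨-, -, S, hS, hSk⟩ := h1
    cases j with
    | zero =>
      rw [nonDense_of_atLevel_zero M h2] at hS
      exact hS.elim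
    | succ j =>
      rw [AtLevel] at h2
      obtain ⟨-, h2a, -⟩ := h2
      obtain ⟨a, ha, ha'⟩ := h2a S hS
      exact ih a (by omega) _ hSk ha'

theorem atLevel_Y (hn : 2 ≤ n) : ∀ k : ℕ, AtLevel k (closure (leaf (line hn (Y k)))) := by
  intro k
  induction k using Nat.strong_induction_on with
  | _ k ih =>
    cases k with
    | zero =>
      rw [AtLevel]
      left
      have h1 : ∀ i, sh i (Y 0) = Y 0 := by
        intro i; funext N; simp [sh, Y_zero]
      have h2 : (Set.range fun i => sh i (Y 0)) = {Y 0} := by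
        ext y; simp [h1]
      have h3 : leaf (line hn (Y 0)) = {line hn (Y 0)} := by
        rw [leaf_line, h2, Set.image_singleton]
      refine ⟨line hn (Y 0), ?_, ?_⟩
      · rw [h3]; exact isClosed_singleton.closure_eq
      · rw [h3, isClosed_singleton.closure_eq]; exact Set.finite_singleton _
    | succ k =>
      have hnd : nonDense (closure (leaf (line hn (Y (k + 1))))) = line hn '' (O (Y k)) := by
        ext S
        constructor
        · rintro ⟨hS, hS'⟩
          rw [closure_leaf_line] at hS
          obtain ⟨y, hy, rfl⟩ := hS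
          rcases O_Y_succ_subset k hy with ⟨i, rfl⟩ | h
          · exfalso
            apply hS'
            rw [closure_leaf_line, closure_leaf_line, O_sh]
          · exact ⟨y, h, rfl⟩
        · rintro ⟨y, hy, rfl⟩
          refine ⟨?_, ?_⟩
          · rw [closure_leaf_line]
            exact ⟨y, O_trans (Y_mem_O k) hy, rfl⟩
          · intro hsub
            rw [closure_leaf_line, closure_leaf_line] at hsub
            have h1 : line hn (Y (k + 1)) ∈ line hn '' (O y) :=
              hsub ⟨_, self_mem_O _, rfl⟩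
            obtain ⟨z, hz, hz'⟩ := h1
            rw [line_injective hn hz'] at hz
            exact Y_not_mem k (O_trans hy hz)
      have hcl : closure (line hn '' (O (Y k))) = line hn '' (O (Y k)) := by
        rw [closure_image_line]
        congr 1
        exact isClosed_closure.closure_eq
      rw [AtLevel]
      refine ⟨?_, ?_, ?_⟩
      · rw [hnd, hcl, closure_leaf_line]
        refine ⟨Set.image_mono (O_subset (Y_mem_O k)), ?_⟩
        intro hsub
        obtain ⟨z, hz, hz'⟩ := hsub ⟨_, self_mem_O (Y (k + 1)), rfl⟩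
        rw [line_injective hn hz'] at hz
        exact Y_not_mem k hz
      · rw [hnd]
        rintro _ ⟨y, hy, rfl⟩
        obtain ⟨j, hj, i, rfl⟩ := mem_O_Y k y hy
        refine ⟨j, hj, ?_⟩
        rw [closure_leaf_line, O_sh, ← closure_leaf_line]
        exact ih j (by omega)
      · rw [hnd]
        exact ⟨_, ⟨Y k, self_mem_O _, rfl⟩, ih k (by omega)⟩

/-- in the closure of the leaf of the transitive line, the leaf coded by `Y k` is not dense -/
theorem nonDense_Y (hn : 2 ≤ n) (k : ℕ) :
    line hn (Y k) ∈ nonDense (closure (leaf (line hn Z))) := by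
  refine ⟨?_, ?_⟩
  · rw [closure_leaf_line]
    exact ⟨_, Z_transitive _, rfl⟩
  · intro hsub
    rw [closure_leaf_line, closure_leaf_line] at hsub
    obtain ⟨z, hz, hz'⟩ := hsub ⟨_, Z_transitive (Y (k + 1)), rfl⟩
    rw [line_injective hn hz'] at hz
    exact Y_not_mem k hz

theorem infiniteLevel_Z (hn : 2 ≤ n) : InfiniteLevel (closure (leaf (line hn Z))) := by
  intro k hk
  cases k with
  | zero =>
    have := nonDense_Y hn 0
    rw [nonDense_of_atLevel_zero _ hk] at this
    exact this.elim
  | succ k =>
    rw [AtLevel] at hk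
    obtain ⟨-, h, -⟩ := hk
    obtain ⟨j, hj, hj'⟩ := h _ (nonDense_Y hn (k + 1))
    exact atLevel_unique (k + 1) j (by omega) _ (atLevel_Y hn (k + 1)) hj'

theorem main (n : ℕ) (hn : 2 ≤ n) : ∃ T : X n,
    InfiniteLevel (closure (leaf T)) ∧
      ∀ k : ℕ, ∃ S ∈ nonDense (closure (leaf T)), AtLevel k (closure (leaf S)) :=
  ⟨line hn Z, infiniteLevel_Z hn, fun k => ⟨_, nonDense_Y hn k, atLevel_Y hn k⟩⟩

end Pool.Agent.W_MP_fee8af_an
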