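import Pool.Agent.W_MP_fee8af_an.Defs

namespace Pool.Agent.W_MP_fee8af_an

open FreeGroup

variable {n : ℕ}

/-- the two letters used for coding -/
def gen (hn : 2 ≤ n) (b : Bool) : Fin n := if b then ⟨1, by omega⟩ else ⟨0, by omega⟩

theorem gen_injective (hn : 2 ≤ n) : Function.Injective (gen hn) := by
  intro a b h
  cases a <;> cases b <;> simp_all [gen]

def posW (hn : 2 ≤ n) (x : ℤ → Bool) : ℕ → FreeGroup (Fin n)
  | 0 => 1
  | m + 1 => posW hn x m * of (gen hn (x m))

def negW (hn : 2 ≤ n) (x : ℤ → Bool) : ℕ → FreeGroup (Fin n)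
  | 0 => 1
  | m + 1 => negW hn x m * (of (gen hn (x (Int.negSucc m))))⁻¹

def path (hn : 2 ≤ n) (x : ℤ → Bool) : ℤ → FreeGroup (Fin n)
  | Int.ofNat m => posW hn x m
  | Int.negSucc m => negW hn x (m + 1)

theorem path_zero (hn : 2 ≤ n) (x : ℤ → Bool) : path hn x 0 = 1 := rfl

theorem path_succ (hn : 2 ≤ n) (x : ℤ → Bool) (i : ℤ) :
    path hn x (i + 1) = path hn x i * of (gen hn (x i)) := by
  cases i with
  | ofNat m => rfl
  | negSucc m =>
    cases m with
    | zero => simp [path, negW, Int.negSucc_eq, posW]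
    | succ m =>
      have : Int.negSucc (m + 1) + 1 = Int.negSucc m := by
        simp only [Int.negSucc_eq]; push_cast; ring
      rw [this]
      simp [path, negW]

theorem path_pred (hn : 2 ≤ n) (x : ℤ → Bool) (i : ℤ) :
    path hn x (i - 1) = path hn x i * (of (gen hn (x (i - 1))))⁻¹ := by
  have := path_succ hn x (i - 1)
  rw [sub_add_cancel] at this
  rw [this]; group

/-- the shift -/
def sh (i : ℤ) (x : ℤ → Bool) : ℤ → Bool := fun j => x (i + j)

theorem path_add (hn : 2 ≤ n) (x : ℤ → Bool) (i j : ℤ) :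
    path hn x (i + j) = path hn x i * path hn (sh i x) j := by
  induction j using Int.induction_on with
  | zero => simp [path_zero]
  | succ j ih =>
    rw [← add_assoc, path_succ, ih, path_succ, mul_assoc]; rfl
  | pred j ih =>
    rw [← add_sub_assoc, path_pred, ih, path_pred, mul_assoc]; 
    simp [sh, add_sub_assoc]

/-- exponent sum -/
def deg : FreeGroup (Fin n) →* Multiplicative ℤ := FreeGroup.lift fun _ => Multiplicative.ofAdd 1

theorem deg_path (hn : 2 ≤ n) (x : ℤ → Bool) (i : ℤ) :
    deg (path hn x i) = Multiplicative.ofAdd i := by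
  induction i using Int.induction_on with
  | zero => simp [path_zero]
  | succ j ih => rw [path_succ, _root_.map_mul, ih]; simp [deg, ← ofAdd_add]
  | pred j ih =>
    rw [path_pred, _root_.map_mul, ih, _root_.map_inv]
    simp [deg, ← ofAdd_add, ← ofAdd_neg, sub_eq_add_neg]

theorem natAbs_deg_le (g : FreeGroup (Fin n)) :
    (Multiplicative.toAdd (deg g)).natAbs ≤ norm g := by
  have key : ∀ L : List (Fin n × Bool),
      (Multiplicative.toAdd (deg (FreeGroup.mk L))).natAbs ≤ L.length := by
    intro L
    induction L with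
    | nil => simp [deg]
    | cons a L ih =>
      have : FreeGroup.mk (a :: L) = FreeGroup.mk [a] * FreeGroup.mk L := by
        simp [FreeGroup.mul_mk]
      rw [this, _root_.map_mul, toAdd_mul, List.length_cons]
      have h1 : (Multiplicative.toAdd (deg (FreeGroup.mk [a]))).natAbs ≤ 1 := by
        rcases a with ⟨a, b⟩
        cases b <;> simp [deg]
      omega
  have := key g.toWord
  rwa [FreeGroup.mk_toWord] at this

theorem path_injective (hn : 2 ≤ n) (x : ℤ → Bool) : Function.Injective (path hn x) := by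
  intro i j h
  have := congrArg deg h
  rw [deg_path, deg_path] at this
  exact Multiplicative.ofAdd.injective this

theorem path_connected (hn : 2 ≤ n) (x : ℤ → Bool) :
    ((cayley n).induce (Set.range (path hn x))).Connected := by
  have h0 : ∀ i : ℤ, ((cayley n).induce (Set.range (path hn x))).Reachable
      ⟨path hn x 0, ⟨0, rfl⟩⟩ ⟨path hn x i, ⟨i, rfl⟩⟩ := by
    intro i
    induction i using Int.induction_on with
    | zero => exact SimpleGraph.Reachable.refl _
    | succ j ih =>
      refine ih.trans (SimpleGraph.Adj.reachable ?_)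
      exact ⟨gen hn (x j), Or.inl (path_succ hn x j)⟩
    | pred j ih =>
      refine ih.trans (SimpleGraph.Adj.reachable ?_)
      refine ⟨gen hn (x (-j - 1)), Or.inr ?_⟩
      have := path_succ hn x (-j - 1)
      rw [sub_add_cancel] at this
      exact this
  have : Nonempty (Set.range (path hn x)) := ⟨⟨path hn x 0, ⟨0, rfl⟩⟩⟩
  refine ⟨?_⟩
  rintro ⟨_, i, rfl⟩ ⟨_, j, rfl⟩
  exact (h0 i).symm.trans (h0 j)

/-- the line coded by a two-sided sequence -/
def line (hn : 2 ≤ n) (x : ℤ → Bool) : X n where
  verts := Set.range (path hn x)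
  one_mem := ⟨0, path_zero hn x⟩
  infinite := Set.infinite_range_of_injective (path_injective hn x)
  connected := path_connected hn x

theorem X.ext' {S T : X n} (h : S.verts = T.verts) : S = T := by
  cases S; cases T; cases h; rfl

theorem line_injective (hn : 2 ≤ n) : Function.Injective (line hn) := by
  intro x y h
  have hr : Set.range (path hn x) = Set.range (path hn y) := congrArg X.verts h
  have hp : ∀ i, path hn x i = path hn y i := by
    intro i
    have : path hn x i ∈ Set.range (path hn y) := hr ▸ ⟨i, rfl⟩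
    obtain ⟨j, hj⟩ := this
    have := congrArg deg hj
    rw [deg_path, deg_path] at this
    have hij : j = i := Multiplicative.ofAdd.injective this
    rw [← hj, hij]
  funext i
  have h1 := path_succ hn x i
  have h2 := path_succ hn y i
  rw [hp (i + 1), hp i, h2] at h1
  have h3 := mul_left_cancel h1
  exact (gen_injective hn (FreeGroup.of_injective h3)).symm

theorem leaf_line (hn : 2 ≤ n) (x : ℤ → Bool) :
    leaf (line hn x) = line hn '' (Set.range fun i => sh i x) := by
  have key : ∀ i : ℤ, {h | path hn x i * h ∈ Set.range (path hn x)}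
      = Set.range (path hn (sh i x)) := by
    intro i
    ext h
    constructor
    · rintro ⟨j, hj⟩
      refine ⟨j - i, ?_⟩
      have := path_add hn x i (j - i)
      rw [add_sub_cancel, hj] at this
      exact (mul_left_cancel this).symm
    · rintro ⟨j, rfl⟩
      exact ⟨i + j, path_add hn x i j⟩
  ext S
  constructor
  · rintro ⟨_, ⟨i, rfl⟩, hS⟩
    refine ⟨sh i x, ⟨i, rfl⟩, X.ext' ?_⟩
    rw [hS]
    exact (key i).symm
  · rintro ⟨_, ⟨i, rfl⟩, rfl⟩
    exact ⟨path hn x i, ⟨i, rfl⟩, (key i).symm⟩

/-- agreement on a window forces agreement of the path -/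
theorem path_congr (hn : 2 ≤ n) {x y : ℤ → Bool} {r : ℕ}
    (h : ∀ j : ℤ, j.natAbs ≤ r → x j = y j) (i : ℤ) (hi : i.natAbs ≤ r) :
    path hn x i = path hn y i := by
  induction i using Int.induction_on with
  | zero => rfl
  | succ j ih =>
    rw [path_succ, path_succ, ih (by omega), h j (by omega)]
  | pred j ih =>
    rw [path_pred, path_pred, ih (by omega), h (-j - 1) hi]

theorem ball_line_congr (hn : 2 ≤ n) {x y : ℤ → Bool} {r : ℕ}
    (h : ∀ j : ℤ, j.natAbs ≤ r → x j = y j) : (line hn x).ball r = (line hn y).ball r := by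
  have key : ∀ x y : ℤ → Bool, (∀ j : ℤ, j.natAbs ≤ r → x j = y j) →
      (line hn x).ball r ⊆ (line hn y).ball r := by
    rintro x y h _ ⟨⟨i, rfl⟩, hg⟩
    have h1 := natAbs_deg_le (path hn x i)
    rw [deg_path] at h1
    have h2 : i.natAbs ≤ r := le_trans h1 hg
    exact ⟨⟨i, (path_congr hn h i h2).symm⟩, hg⟩
  exact Set.Subset.antisymm (key x y h) (key y x fun j hj => (h j hj).symm)

theorem isOpen_window (x : ℤ → Bool) (r : ℕ) :
    IsOpen {z : ℤ → Bool | ∀ j : ℤ, j.natAbs ≤ r → z j = x j} := by
  have : {z : ℤ → Bool | ∀ j : ℤ, j.natAbs ≤ r → z j = x j}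
      = ⋂ j ∈ (Finset.Icc (-(r : ℤ)) r), {z : ℤ → Bool | z j = x j} := by
    ext z
    simp only [Finset.mem_Icc, Set.mem_iInter]
    constructor
    · intro h j hj; exact h j (by omega)
    · intro h j hj; exact h j (by omega)
  rw [this]
  refine isOpen_biInter_finset ?_
  intro j _
  have h1 : Continuous fun z : ℤ → Bool => z j := continuous_apply j
  exact (isOpen_discrete ({x j} : Set Bool)).preimage h1

theorem line_continuous (hn : 2 ≤ n) : Continuous (line hn) := by
  refine continuous_generateFrom_iff.2 ?_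
  rintro _ ⟨T, r, rfl⟩
  rw [isOpen_iff_forall_mem_open]
  intro x hx
  refine ⟨{z | ∀ j : ℤ, j.natAbs ≤ r → z j = x j}, ?_, isOpen_window x r, fun _ _ => rfl⟩
  intro z hz
  show (line hn z).ball r = T.ball r
  rw [ball_line_congr hn hz]
  exact hx

instance : T2Space (X n) := by
  refine ⟨fun S T hST => ?_⟩
  have : ∃ r, S.ball r ≠ T.ball r := by
    by_contra hcon
    push Not at hcon
    apply hST
    apply X.ext'
    ext g
    have := hcon (norm g)
    constructor
    · intro hg
      have h1 : g ∈ S.ball (norm g) := ⟨hg, le_refl _⟩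
      rw [this] at h1
      exact h1.1
    · intro hg
      have h1 : g ∈ T.ball (norm g) := ⟨hg, le_refl _⟩
      rw [← this] at h1
      exact h1.1
  obtain ⟨r, hr⟩ := this
  refine ⟨{U | U.ball r = S.ball r}, {U | U.ball r = T.ball r},
    TopologicalSpace.isOpen_generateFrom_of_mem ⟨S, r, rfl⟩,
    TopologicalSpace.isOpen_generateFrom_of_mem ⟨T, r, rfl⟩, rfl, rfl, ?_⟩
  rw [Set.disjoint_left]
  intro U h1 h2
  exact hr (h1.symm.trans h2)

theorem closure_image_line (hn : 2 ≤ n) (A : Set (ℤ → Bool)) :
    closure (line hn '' A) = line hn '' (closure A) :=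
  ((line_continuous hn).isClosedEmbedding (line_injective hn)).closure_image_eq A

/-- orbit closure -/
def O (x : ℤ → Bool) : Set (ℤ → Bool) := closure (Set.range fun i => sh i x)

theorem closure_leaf_line (hn : 2 ≤ n) (x : ℤ → Bool) :
    closure (leaf (line hn x)) = line hn '' (O x) := by
  rw [leaf_line, closure_image_line]; rfl

theorem mem_closure_iff_window {A : Set (ℤ → Bool)} {y : ℤ → Bool} :
    y ∈ closure A ↔ ∀ r : ℕ, ∃ z ∈ A, ∀ j : ℤ, j.natAbs ≤ r → z j = y j := by
  constructor
  · intro hy r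
    rw [mem_closure_iff] at hy
    obtain ⟨z, hz1, hz2⟩ := hy _ (isOpen_window y r) (fun _ _ => rfl)
    exact ⟨z, hz2, hz1⟩
  · intro h
    rw [mem_closure_iff]
    intro U hU hyU
    rw [isOpen_pi_iff] at hU
    obtain ⟨I, u, h1, h2⟩ := hU y hyU
    obtain ⟨z, hzA, hz⟩ := h (I.sup Int.natAbs)
    refine ⟨z, h2 ?_, hzA⟩
    intro a ha
    rw [hz a (Finset.le_sup (f := Int.natAbs) ha)]
    exact (h1 a ha).2

end Pool.Agent.W_MP_fee8af_an
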