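import Pool.Agent.W_MP_fee8af_an.Path

namespace Pool.Agent.W_MP_fee8af_an

/-! ### symbolic part -/

theorem mem_O {x y : ℤ → Bool} :
    y ∈ O x ↔ ∀ r : ℕ, ∃ i : ℤ, ∀ j : ℤ, j.natAbs ≤ r → x (i + j) = y j := by
  unfold O
  rw [mem_closure_iff_window]
  constructor
  · intro h r
    obtain ⟨_, ⟨i, rfl⟩, hz⟩ := h r
    exact ⟨i, hz⟩
  · intro h r
    obtain ⟨i, hi⟩ := h r
    exact ⟨_, ⟨i, rfl⟩, hi⟩

theorem self_mem_O (x : ℤ → Bool) : x ∈ O x := mem_O.2 fun _ => ⟨0, fun j _ => by rw [zero_add]⟩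

theorem sh_mem_O (x : ℤ → Bool) (i : ℤ) : sh i x ∈ O x := mem_O.2 fun _ => ⟨i, fun _ _ => rfl⟩

theorem O_trans {x y z : ℤ → Bool} (h1 : y ∈ O x) (h2 : z ∈ O y) : z ∈ O x := by
  rw [mem_O] at *
  intro r
  obtain ⟨i, hi⟩ := h2 r
  obtain ⟨i', hi'⟩ := h1 (r + i.natAbs)
  refine ⟨i' + i, fun j hj => ?_⟩
  rw [← hi j hj, ← hi' (i + j) (by omega), add_assoc]

theorem O_subset {x y : ℤ → Bool} (h : y ∈ O x) : O y ⊆ O x := fun _ hz => O_trans h hz

theorem O_sh (x : ℤ → Bool) (i : ℤ) : O (sh i x) = O x := by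
  apply Set.Subset.antisymm (O_subset (sh_mem_O x i))
  apply O_subset
  rw [mem_O]
  intro r
  refine ⟨-i, fun j _ => ?_⟩
  simp [sh]

/-- binary weight -/
def wt (N : ℕ) : ℕ := if h : N = 0 then 0 else wt (N - 2 ^ Nat.log 2 N) + 1
termination_by N
decreasing_by
  have : 0 < 2 ^ Nat.log 2 N := by positivity
  omega

theorem wt_zero : wt 0 = 0 := by rw [wt]; simp

theorem wt_pow_add (i M : ℕ) (h : M < 2 ^ i) : wt (2 ^ i + M) = wt M + 1 := by
  have hlog : Nat.log 2 (2 ^ i + M) = i := by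
    rw [Nat.log_eq_iff (Or.inr ⟨by norm_num, by positivity⟩)]
    constructor
    · omega
    · rw [pow_succ]; omega
  rw [wt, hlog]
  have h1 : 2 ^ i + M ≠ 0 := by positivity
  simp

theorem wt_pow_sub (c s : ℕ) (hs : 1 ≤ s) (hc : s ≤ 2 ^ c) (d : ℕ) :
    d ≤ wt (2 ^ (c + d) - s) := by
  induction d with
  | zero => exact Nat.zero_le _
  | succ d ih =>
    have h2 : 2 ^ (c + (d + 1)) = 2 ^ (c + d) + 2 ^ (c + d) := by
      rw [← add_assoc, pow_succ]; ring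
    have h3 : 2 ^ c ≤ 2 ^ (c + d) := Nat.pow_le_pow_right (by norm_num) (by omega)
    have h4 : 2 ^ (c + (d + 1)) - s = 2 ^ (c + d) + (2 ^ (c + d) - s) := by omega
    rw [h4, wt_pow_add _ _ (by omega)]
    omega

/-- the sequence of level `k` -/
def Y (k : ℕ) : ℤ → Bool := fun N => decide (0 ≤ N ∧ wt N.toNat + 1 = k)

theorem Y_zero (N : ℤ) : Y 0 N = false := by simp [Y]

theorem Y_neg (k : ℕ) {N : ℤ} (h : N < 0) : Y k N = false := by
  simp only [Y, decide_eq_false_iff_not]; omega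

/-- the key self-similarity -/
theorem Y_shift (k r i : ℕ) (hi : k + 2 * r + 1 ≤ i) (M : ℤ) (h1 : -(2 * r : ℤ) ≤ M)
    (h2 : M < 2 ^ i) : Y (k + 1) (2 ^ i + M) = Y k M := by
  rcases lt_or_ge M 0 with hM | hM
  · rw [Y_neg k hM]
    obtain ⟨s, rfl⟩ : ∃ s : ℕ, M = -s := ⟨M.natAbs, by omega⟩
    have hs : s ≤ 2 ^ (2 * r) := by
      have : 2 * r < 2 ^ (2 * r) := Nat.lt_two_pow_self
      omega
    obtain ⟨d, rfl⟩ : ∃ d, i = 2 * r + d := ⟨i - 2 * r, by omega⟩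
    have := wt_pow_sub (2 * r) s (by omega) hs d
    have h5 : s ≤ 2 ^ (2 * r + d) :=
      le_trans hs (Nat.pow_le_pow_right (by norm_num) (by omega))
    have h6 : ((2 : ℤ) ^ (2 * r + d) + -(s : ℤ)).toNat = 2 ^ (2 * r + d) - s := by
      have : ((2 : ℤ) ^ (2 * r + d) + -(s : ℤ)) = ((2 ^ (2 * r + d) - s : ℕ) : ℤ) := by
        push_cast [Nat.cast_sub h5]; ring
      rw [this]; exact Int.toNat_natCast _
    simp only [Y, decide_eq_false_iff_not, h6]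
    omega
  · obtain ⟨m, rfl⟩ : ∃ m : ℕ, M = m := ⟨M.natAbs, by omega⟩
    have hm : m < 2 ^ i := by exact_mod_cast h2
    have h6 : ((2 : ℤ) ^ i + (m : ℤ)).toNat = 2 ^ i + m := by
      have : ((2 : ℤ) ^ i + (m : ℤ)) = ((2 ^ i + m : ℕ) : ℤ) := by push_cast; ring
      rw [this]; exact Int.toNat_natCast _
    simp only [Y, h6, wt_pow_add i m hm, Int.toNat_natCast]
    have : (0 : ℤ) ≤ 2 ^ i + m := by positivity
    simp [this]

/-- far windows of `Y (k+1)` are windows of `Y k` -/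
theorem Y_far (k r : ℕ) : ∃ N0 : ℕ, ∀ N : ℤ, N0 ≤ N.natAbs →
    ∃ M : ℤ, ∀ j : ℤ, j.natAbs ≤ r → Y (k + 1) (N + j) = Y k (M + j) := by
  refine ⟨2 ^ (k + 2 * r + 1) + r + 1, fun N hN => ?_⟩
  have hN2 : r + 1 ≤ N.natAbs :=
    le_trans (by rw [add_assoc]; exact Nat.le_add_left _ _) hN
  rcases lt_or_ge N 0 with hneg | hpos
  · refine ⟨-(r + 1 : ℤ), fun j hj => ?_⟩
    rw [Y_neg _ (by omega), Y_neg _ (by omega)]
  · obtain ⟨m, rfl⟩ : ∃ m : ℕ, N = m := ⟨N.natAbs, by omega⟩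
    simp only [Int.natAbs_natCast] at hN hN2
    set i := Nat.log 2 (m + r) with hi
    have hpos2 : 0 < 2 ^ (k + 2 * r + 1) := by positivity
    have h1 : 2 ^ i ≤ m + r := Nat.pow_log_le_self 2 (by omega)
    have h2 : m + r < 2 ^ (i + 1) := Nat.lt_pow_succ_log_self (by norm_num) _
    have h3 : k + 2 * r + 1 ≤ i := by
      rw [hi]
      apply Nat.le_log_of_pow_le (by norm_num)
      omega
    refine ⟨m - 2 ^ i, fun j hj => ?_⟩
    have h1' : (2 : ℤ) ^ i ≤ m + r := by exact_mod_cast h1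
    have h2' : (m : ℤ) + r < 2 ^ i * 2 := by rw [← pow_succ]; exact_mod_cast h2
    have := Y_shift k r i h3 (m - 2 ^ i + j) (by omega) (by omega)
    rw [← this]
    congr 1; ring

/-- `Y k` is a limit of far windows of `Y (k+1)` -/
theorem Y_mem_far (k r N0 : ℕ) : ∃ N : ℤ, N0 ≤ N.natAbs ∧
    ∀ j : ℤ, j.natAbs ≤ r → Y (k + 1) (N + j) = Y k j := by
  refine ⟨2 ^ (k + 2 * r + 1 + N0), ?_, fun j hj => ?_⟩
  · have h1 : k + 2 * r + 1 + N0 < 2 ^ (k + 2 * r + 1 + N0) := Nat.lt_two_pow_self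
    have h2 : ((2 : ℤ) ^ (k + 2 * r + 1 + N0)).natAbs = 2 ^ (k + 2 * r + 1 + N0) := by
      rw [Int.natAbs_pow]; rfl
    omega
  · apply Y_shift k r _ (by omega) j (by omega)
    have h1 : k + 2 * r + 1 + N0 < 2 ^ (k + 2 * r + 1 + N0) := Nat.lt_two_pow_self
    have h1' : ((k + 2 * r + 1 + N0 : ℕ) : ℤ) < 2 ^ (k + 2 * r + 1 + N0) := by exact_mod_cast h1
    by_cases hr : r = 0
    · subst hr
      have : j = 0 := by omega
      rw [this]; positivity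
    · push_cast at h1'; omega

theorem Y_mem_O (k : ℕ) : Y k ∈ O (Y (k + 1)) := by
  rw [mem_O]
  intro r
  obtain ⟨N, -, hN⟩ := Y_mem_far k r 0
  exact ⟨N, hN⟩

/-- limit set description, one half -/
theorem O_Y_succ_subset (k : ℕ) :
    O (Y (k + 1)) ⊆ (Set.range fun i => sh i (Y (k + 1))) ∪ O (Y k) := by
  intro y hy
  by_contra hcon
  rw [Set.mem_union, not_or] at hcon
  obtain ⟨hc1, hc2⟩ := hcon
  rw [mem_O] at hc2
  push Not at hc2
  obtain ⟨r, hr⟩ := hc2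
  obtain ⟨N0, hN0⟩ := Y_far k r
  have h1 : y ∈ closure ((fun i : ℤ => sh i (Y (k + 1))) '' (Finset.Icc (-(N0 : ℤ)) N0 : Set ℤ)) := by
    rw [mem_closure_iff_window]
    intro r'
    rw [mem_O] at hy
    obtain ⟨i, hi⟩ := hy (max r r')
    refine ⟨sh i (Y (k + 1)), ⟨i, ?_, rfl⟩, fun j hj => hi j (by omega)⟩
    by_contra hi2
    have hi3 : N0 ≤ i.natAbs := by
      simp only [Finset.coe_Icc, Set.mem_Icc, not_and_or] at hi2
      omega
    obtain ⟨M, hM⟩ := hN0 i hi3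
    obtain ⟨j, hj, hne⟩ := hr M
    apply hne
    rw [← hM j hj, hi j (by omega)]
  have h2 : (((fun i : ℤ => sh i (Y (k + 1))) '' (Finset.Icc (-(N0 : ℤ)) N0 : Set ℤ))).Finite :=
    Set.Finite.image _ (Finset.finite_toSet _)
  rw [h2.isClosed.closure_eq] at h1
  obtain ⟨i, -, rfl⟩ := h1
  exact hc1 ⟨i, rfl⟩

/-- If `Y (k+1)` is in an orbit closure of `Y j`, `j ≤ k`, contradiction. -/
theorem Y_not_mem (k : ℕ) : Y (k + 1) ∉ O (Y k) := by
  induction k with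
  | zero =>
    intro h
    rw [mem_O] at h
    obtain ⟨i, hi⟩ := h 0
    have := hi 0 (by simp)
    rw [Y_zero] at this
    simp [Y, wt_zero] at this
  | succ k ih =>
    intro h
    -- far windows of `Y (k+2)` around limit `Y (k+1)`
    apply ih
    -- show `Y (k+1) ∈ O (Y k)`
    rcases O_Y_succ_subset k h with ⟨i, hi⟩ | h
    · -- `Y (k+2)` is a shift of `Y (k+1)`
      rw [mem_O]
      intro r
      obtain ⟨N0, hN0⟩ := Y_far k r
      obtain ⟨N, hN, hN'⟩ := Y_mem_far (k + 1) r (N0 + i.natAbs)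
      obtain ⟨M, hM⟩ := hN0 (i + N) (by omega)
      refine ⟨M, fun j hj => ?_⟩
      rw [← hM j hj, ← hN' j hj, ← hi]
      simp [sh, add_assoc]
    · exact O_trans h (Y_mem_O (k + 1))

theorem mem_O_Y (k : ℕ) : ∀ y ∈ O (Y k), ∃ j, j ≤ k ∧ ∃ i, y = sh i (Y j) := by
  induction k with
  | zero =>
    intro y hy
    refine ⟨0, le_refl _, 0, ?_⟩
    funext N
    rw [mem_O] at hy
    obtain ⟨i, hi⟩ := hy N.natAbs
    rw [← hi N (le_refl _), Y_zero]
    simp [sh, Y_zero]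
  | succ k ih =>
    intro y hy
    rcases O_Y_succ_subset k hy with ⟨i, hi⟩ | h
    · exact ⟨k + 1, le_refl _, i, hi.symm⟩
    · obtain ⟨j, hj, i, hi⟩ := ih y h
      exact ⟨j, by omega, i, hi⟩

/-- a transitive point of the full shift -/
def Z : ℤ → Bool := fun N => Nat.testBit (Nat.log 2 N.toNat) (N.toNat - 2 ^ Nat.log 2 N.toNat)

theorem Z_eq (m t : ℕ) (h : t < 2 ^ m) : Z ((2 ^ m + t : ℕ) : ℤ) = Nat.testBit m t := by
  have hlog : Nat.log 2 (2 ^ m + t) = m := by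
    rw [Nat.log_eq_iff (Or.inr ⟨by norm_num, by positivity⟩)]
    constructor
    · omega
    · rw [pow_succ]; omega
  simp only [Z, Int.toNat_natCast, hlog]
  congr 1
  omega

theorem exists_bits (L : ℕ) (w : ℕ → Bool) : ∃ m : ℕ, L ≤ m ∧ ∀ t < L, Nat.testBit m t = w t := by
  refine ⟨2 ^ L + Nat.ofBits (fun i : Fin L => w i), ?_, fun t ht => ?_⟩
  · have : L < 2 ^ L := Nat.lt_two_pow_self
    omega
  · rw [Nat.testBit_two_pow_add_gt ht]
    rw [Nat.testBit_ofBits_lt _ _ ht]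

theorem Z_transitive (w : ℤ → Bool) : w ∈ O Z := by
  rw [mem_O]
  intro r
  obtain ⟨m, hm, hm'⟩ := exists_bits (2 * r + 1) (fun t => w ((t : ℤ) - r))
  refine ⟨((2 ^ m + r : ℕ) : ℤ), fun j hj => ?_⟩
  have h0 : m < 2 ^ m := Nat.lt_two_pow_self
  obtain ⟨t, ht⟩ : ∃ t : ℕ, (t : ℤ) = r + j := ⟨(r + j).toNat, by omega⟩
  have h1 : ((2 ^ m + r : ℕ) : ℤ) + j = ((2 ^ m + t : ℕ) : ℤ) := by
    push_cast; rw [ht]; ring
  rw [h1, Z_eq m t (by omega), hm' t (by omega)]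
  congr 1
  omega

end Pool.Agent.W_MP_fee8af_an
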